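import Pool.Agent.H208Q.M

/-!
MP_19ffc6_ag: resolution of the quotients of varieties of characteristic `p` by `p`-closed
foliations of arbitrary rank (and tame abelian groups) whose leading forms along a weighted centre
are linearly independent outside the vertex.
-/

set_option autoImplicit false

open AlgebraicGeometry CategoryTheory Pool.Agent.H920R2 Pool.Agent.H519R3.RS Pool.Agent.H208Q

universe u

namespace Pool.Agent.Results.MP_19ffc6_ag.IndependentFoliations

/-- The structure morphism of the spectrum of a subalgebra. -/
noncomputable def str {k B : Type u} [Field k] [CommRing B] [Algebra k B] (C : Subalgebra k B) :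
    Spec (CommRingCat.of C) ⟶ Spec (CommRingCat.of k) :=
  Spec.map (CommRingCat.ofHom (algebraMap k C))

/-- Let `B` be a domain over a field `k` of characteristic `p` and `F` a decreasing multiplicative
filtration of `B` by ideals, with `F 0 = B` and `F 1 ≠ 0`, such that the weighted blowup of `F` is
smooth (`Good`; then `B` may be singular), for instance `B` smooth and `F` a regular weighted
centre. Let `D 0, ..., D (r - 1)` be vector fields on `Spec B`, which need not commute, such that
`D i` maps the common constants `C i` of `D 0, ..., D (i - 1)` to themselves and is `p`-closed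
there (`(D i) ^ p b * D i c = (D i) ^ p c * D i b` for `b`, `c` in `C i`). Suppose that

* `D i` raises the weights by some `l i ≥ 0`;
* the `D i` are linearly independent at every point outside the centre;
* the leading forms of the `D i`, which are vector fields on the normal cone of the centre, are
  linearly independent at every point outside the vertex: every `a` in `F d`, `d > 0`, has a power
  `a ^ N` in the ideal generated by `F (N * d + 1)` and the multiples of the determinants of the
  elements `D i (c j)` (`detI`).

Let `G` be a finite abelian group of order prime to `p` which acts on `B` preserving `F` and the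
ring of the common constants of the `D i`, such that `k` contains the roots of unity of order the
exponent of `G` (for instance the trivial group). Let `C` be the ring of the common constants of
the `D i` which are invariant under `G`. Then `Spec C`, the quotient of `Spec B` by the foliation
of rank `r` and the group, is a variety which has a resolution of singularities. -/
theorem result (p : ℕ) [Fact p.Prime] (k : Type u) [Field k] [CharP k p] (B : Type u)
    [CommRing B] [IsDomain B] [Algebra k B] (F : ℕ → Ideal B) (hF : IsFilt F) (hne : F 1 ≠ ⊥)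
    (hB : Good k hF ∨ (Algebra.Smooth k B ∧ RegularWeightedCentre k F))
    (r : ℕ) (D : ℕ → Derivation k B B) (l : ℕ → ℕ)
    (hst : ∀ i < r, ∀ b, (∀ j < i, D j b = 0) → ∀ j < i, D j (D i b) = 0)
    (hcl : ∀ i < r, ∀ b c, (∀ j < i, D j b = 0) → (∀ j < i, D j c = 0) →
      (D i)^[p] b * D i c = (D i)^[p] c * D i b)
    (hdiv : ∀ i < r, ∀ d, ∀ a ∈ F d, D i a ∈ F (d + l i))
    (hfix : ∀ Q : Ideal B, Q.IsPrime →
      (∀ c : Fin r → B, (Matrix.of fun (i j : Fin r) => D i (c j)).det ∈ Q) → F 1 ≤ Q)
    (hlead : ∀ d, 1 ≤ d → ∀ a ∈ F d, ∃ N : ℕ,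
      a ^ N ∈ detI (fun (i : Fin r) b => D i b) F (fun i => l i) (N * d))
    (G : Type) [CommGroup G] [Finite G] (Θ : G →* (B ≃ₐ[k] B)) (hG : ¬ p ∣ Nat.card G)
    [HasEnoughRootsOfUnity k (Monoid.exponent G)]
    (hΘF : ∀ g d, ∀ x ∈ F d, Θ g x ∈ F d)
    (hΘ : ∀ g b, (∀ i < r, D i b = 0) → ∀ i < r, D i (Θ g b) = 0)
    (C : Subalgebra k B) (hC : ∀ b, b ∈ C ↔ (∀ i < r, D i b = 0) ∧ ∀ g, Θ g b = b) :
    IsVariety (str C) ∧
    ∃ (Y : Scheme.{u}) (π : Y ⟶ Spec (CommRingCat.of C)),
      AlgebraicGeometry.IsIntegral Y ∧ AlgebraicGeometry.IsProper π ∧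
      AlgebraicGeometry.Smooth (π ≫ str C) ∧
      ∃ U : (Spec (CommRingCat.of C)).Opens,
        Dense (U : Set (Spec (CommRingCat.of C))) ∧ IsIso (π ∣_ U) := by
  have hp : p.Prime := Fact.out
  have hpk : (p : k) = 0 := CharP.cast_eq_zero k p
  have hG' : (Nat.card G : k) ≠ 0 := fun h => hG ((CharP.cast_eq_zero_iff k p _).1 h)
  have hgood : Good k hF := by
    rcases hB with h | ⟨h1, h2⟩
    · exact h
    · exact good_of_centre hF h2
  exact resolution_fol D hF hp hpk l hdiv hst (fun i hi b hb c hc => hcl i hi b c hb hc)
    hfix hlead hgood hne Θ hG' hΘ hΘF C hC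

end Pool.Agent.Results.MP_19ffc6_ag.IndependentFoliations
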