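import Pool.Agent.Helper772_BP.Final

/-!
MP_19ffc6_ag: resolution of singularities, in all dimensions, of the hypersurfaces
`∑ j, M j ^ (p ^ e j) = 0` over a perfect field of characteristic `p`, and of their normalizations,
where the `M j` are products of powers of single variables `x a` and of arbitrary forms in triples
of variables `X i = (x i 0, x i 1, x i 2)`, if the multidegrees of the `M j` are linearly independent
modulo `p` (only affinely for the terms with the largest exponent `e j`). Examples are
`f 1 (X 1) ^ (p ^ e 1) + ... + f r (X r) ^ (p ^ e r) = 0` with arbitrary, arbitrarily singular forms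
`f i` in three variables of degrees prime to `p`, and the Brieskorn-Pham hypersurfaces
`c 1 * x 1 ^ a 1 + ... + c r * x r ^ a r = 0` with arbitrary exponents `a i ≥ 1`, divisible by `p` or
not. If some of the `e j` are positive then these hypersurfaces are degenerate with respect to
their Newton polyhedra, and their singularities are not isolated.

The proof: let `w s` be the sum of the `M j ^ (p ^ (e j - s))` over the `j` with `e j ≥ s`. Then
`w s` is the sum of the `M j` with `e j = s` and of `w (s + 1) ^ p`, and the equation of the
hypersurface is `w 0 = 0`. So the hypersurface is embedded again, by the graphs of the `w s`, and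
given by several equations in the additional variables `w s`. `M j` is a product of functions on
projective planes and of a monomial in `x a` and `z i = x i 2`. The logarithmic differentials, in the
directions of `x a`, `z i` and `w s`, of the initial forms of these equations for arbitrary weights
are linearly independent at all points where the initial forms vanish: a relation gives, by looking
at the multidegrees, a relation between the multidegrees modulo `p`; the terms `w (s + 1) ^ p` with
differential zero do no harm, because there is only one such term in every equation. So the
equations are schön relative to the product of the planes, and the theorem on schön subvarieties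
of tori over products of surfaces of the starting library (MP_19ffc6_ag.SchonSurfaceCovers,
MP_b525bf_ag.SchonSurfaceInseparable) applies. The starting file
MP_b525bf_ag.ProductsOfLinearForms contains a similar theorem for products of linear forms with
coefficients in the function field of one surface.

helper772; built on the library of the starting files (helper214 and helpers 558, 33, 369, 405, 368,
356, 29, 230, 32, 906, 191, 410, 435, 376, 382, 348, 135, 991, 366, 74, 305, 417, 440, 409, 174,
290, 392, 352, 565, 335, 924, 337, 347, 479, 959, 727, 202, 188, 715, 971, 90, 153 and others).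
-/

set_option autoImplicit false

open AlgebraicGeometry CategoryTheory MvPolynomial Pool.Agent.W558

universe u

namespace Pool.Agent.Results.MP_19ffc6_ag.SumsOfTernaryForms

/-- The polynomial `x 1 ^ v 1 * ... * x n ^ v n * f 1 (X 1) * ... * f m (X m)` in the variables
`x a` and `X i = (x i 0, x i 1, x i 2)`. -/
noncomputable def product {k : Type u} [Field k] {n m : ℕ} (v : Fin n → ℕ)
    (f : Fin m → MvPolynomial (Fin 3) k) : MvPolynomial (Fin n ⊕ (Fin m × Fin 3)) k :=
  (∏ a, X (Sum.inl a) ^ v a) * ∏ i, rename (fun c => Sum.inr (i, c)) (f i)

/-- Let `k` be a perfect field of characteristic `p`, and let `F = ∑ j, c j * M j ^ (p ^ e j)` be a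
polynomial over `k` with `r ≥ 2` terms, `c j ≠ 0`, `e j ≥ 0`, where
`M j = ∏ a, x a ^ v j a * ∏ i, f j i (X i)` is the product of powers of the variables `x 1, ..., x n`
and of nonzero forms `f j i` of degrees `d j i` in the triples of variables `X i`, `i = 1, ..., m`.
Let `N` be the maximum of the `e j` and `δ j = 1` if `e j = N`, `δ j = 0` otherwise, and suppose
that the vectors `(δ j, v j, d j)` are linearly independent modulo `p`. Let `Spec A` be an affine
variety which is finite over the hypersurface `F = 0` in affine `n + 3 * m`-space and birational to
it (the kernel of the homomorphism `ψ` from the polynomial ring to `A` is generated by `F`, and `A` is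
integral over the image of `ψ` and has the same fraction field); for example the hypersurface
itself, if `F` is irreducible, or its normalization. Then `Spec A` has a resolution of
singularities. -/
theorem result (p : ℕ) [Fact p.Prime] (k : Type u) [Field k] [PerfectField k] [CharP k p]
    (n m r N : ℕ) (hr : 2 ≤ r) (c : Fin r → k) (hc : ∀ j, c j ≠ 0) (e : Fin r → ℕ)
    (hN : IsGreatest (Set.range e) N) (v : Fin r → Fin n → ℕ) (d : Fin r → Fin m → ℕ)
    (f : Fin r → Fin m → MvPolynomial (Fin 3) k)
    (hf : ∀ j i, f j i ≠ 0 ∧ (f j i).IsHomogeneous (d j i))
    (hind : LinearIndependent (ZMod p) fun j =>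
      (((if e j = N then 1 else 0), (fun a => (v j a : ZMod p)), fun i => (d j i : ZMod p)) :
        ZMod p × (Fin n → ZMod p) × (Fin m → ZMod p)))
    (F : MvPolynomial (Fin n ⊕ (Fin m × Fin 3)) k)
    (hF : F = ∑ j, C (c j) * product (v j) (f j) ^ p ^ e j)
    (A : Type u) [CommRing A] [IsDomain A] [Algebra k A] [Algebra.FiniteType k A]
    (ψ : MvPolynomial (Fin n ⊕ (Fin m × Fin 3)) k →ₐ[k] A)
    (hker : RingHom.ker ψ = Ideal.span {F}) (hint : ∀ a : A, IsIntegral ψ.range a)
    (hfrac : ∀ a : A, ∃ b s, ψ s ≠ 0 ∧ ψ s * a = ψ b) :
    IsResolvableVariety (X := Spec (CommRingCat.of A))
      (Spec.map (CommRingCat.ofHom (algebraMap k A))) :=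
  Pool.Agent.Helper772_BP.resolvable_finite p k hr c hc v d f hf e hN hind F hF A ψ hker hint hfrac

end Pool.Agent.Results.MP_19ffc6_ag.SumsOfTernaryForms
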