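import Pool.Agent.Helper819.TR.ExtD
import Pool.Agent.W558.WD.Plane

/-!
MP_19ffc6_ag: resolution of the quotients of `S × 𝔸^m`, where `S` is an affine surface in
characteristic `p`, by the group schemes over the function field of `S` which act on `𝔸^m` by
translations, for example by all finite subgroup schemes (infinitesimal, étale or mixed) of the
vector group whose closure is finite over `S`.
-/

set_option autoImplicit false

open AlgebraicGeometry CategoryTheory MvPolynomial Pool.Agent.W558

open scoped TensorProduct

universe u

namespace Pool.Agent.Results.MP_19ffc6_ag.VectorGroupSchemes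

/-- The translation `f (x) ↦ f (x + v)` of the polynomial ring `D[x 0, ..., x (m - 1)]`. -/
noncomputable def translate {D : Type u} [CommRing D] {m : ℕ} (v : Fin m → D) :
    MvPolynomial (Fin m) D →ₐ[D] MvPolynomial (Fin m) D :=
  aeval fun i => X i + C (v i)

variable (k A : Type u) {D : Type u} [Field k] [CommRing A] [Algebra k A] [CommRing D]
  [Algebra A D] {m : ℕ}

/-- The polynomials `f` in `A[x 0, ..., x (m - 1)]` with `f (x + v) = f (x)` in
`D[x 0, ..., x (m - 1)]`. -/
noncomputable def invariants (v : Fin m → D) : Subalgebra k (MvPolynomial (Fin m) A) where
  carrier := {f | translate v (MvPolynomial.map (algebraMap A D) f) =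
    MvPolynomial.map (algebraMap A D) f}
  mul_mem' := by
    intro f g hf hg
    change translate v (MvPolynomial.map (algebraMap A D) (f * g)) = _
    rw [map_mul, map_mul, hf, hg]
  add_mem' := by
    intro f g hf hg
    change translate v (MvPolynomial.map (algebraMap A D) (f + g)) = _
    rw [map_add, map_add, hf, hg]
  algebraMap_mem' := by
    intro a
    change translate v (MvPolynomial.map (algebraMap A D) (C (algebraMap k A a))) =
      MvPolynomial.map (algebraMap A D) (C (algebraMap k A a))
    rw [MvPolynomial.map_C]
    exact (translate v).commutes _

/-- The quotient of `Spec A × 𝔸^m` by the translations by `v`. -/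
noncomputable def quot (v : Fin m → D) : Scheme.{u} :=
  Spec (CommRingCat.of (invariants k A v))

/-- The structure morphism of the quotient. -/
noncomputable def quotStr (v : Fin m → D) : quot k A v ⟶ Spec (CommRingCat.of k) :=
  Spec.map (CommRingCat.ofHom (algebraMap k (invariants k A v)))

/-- Let `k` be a perfect field of characteristic `p` and `A` a domain of finite type over `k`. Let
`K` be the field of fractions of `A`, and suppose that `K` has transcendence degree `2` and is the
function field of a smooth projective surface (which holds in particular if `K` is generated by two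
elements), or that any finite family of nonzero elements of `K` has its zeros and poles in a simple
normal crossings divisor on some smooth projective variety with function field `K`
(`HasLogModels`). Let `H = Spec D` be an affine monoid scheme over `K` (for example a group scheme)
and `v : H ⟶ 𝔾_a^m` a homomorphism, that is, let `v 0, ..., v (m - 1)` be primitive elements of the
bialgebra `D` over `K`. Suppose that the functions `v i` are integral over `A`. Then the quotient of
`Spec A × 𝔸^m` by the translations by `H`, that is, the spectrum of the ring of the `f` in `A[x]`
with `f (x + v) = f (x)`, is a variety and has a resolution of singularities. -/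
theorem result (p : ℕ) [Fact p.Prime] (k : Type u) [Field k] [PerfectField k] [CharP k p]
    (A : Type u) [CommRing A] [IsDomain A] [Algebra k A] [Algebra.FiniteType k A]
    (hE : (Algebra.trdeg k (FractionRing A) = 2 ∧
        ((∃ u : Fin 2 → FractionRing A, IntermediateField.adjoin k (Set.range u) = ⊤) ∨
        HasModel k (FractionRing A))) ∨
      HasLogModels k (FractionRing A))
    (D : Type u) [CommRing D] [Bialgebra (FractionRing A) D] [Algebra A D]
    [IsScalarTower A (FractionRing A) D] (m : ℕ) (v : Fin m → D)
    (hv : ∀ i, Coalgebra.comul (R := FractionRing A) (v i) =
      v i ⊗ₜ[FractionRing A] 1 + 1 ⊗ₜ[FractionRing A] v i)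
    (hint : ∀ i, IsIntegral A (v i)) :
    IsResolvableVariety (quotStr k A v) := by
  have hE' : (Algebra.trdeg k (FractionRing A) = 2 ∧ HasModel k (FractionRing A)) ∨
      HasLogModels k (FractionRing A) := by
    rcases hE with ⟨h2, ⟨w, hw⟩ | h⟩ | h
    · exact Or.inl ⟨h2, hasModel_plane h2 (fun j => (ind_of_top h2 w hw).ne_zero j) hw⟩
    · exact Or.inl ⟨h2, h⟩
    · exact Or.inr h
  have : CharP (FractionRing A) p := charP_of_injective_algebraMap
    (algebraMap k (FractionRing A)).injective p
  exact Pool.Agent.Helper819.TR.RD.ext_core (k := k) (A := A) (K := FractionRing A) p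
    (Pool.Agent.Helper819.TR.hasMon_field hE') m v hv hint

end Pool.Agent.Results.MP_19ffc6_ag.VectorGroupSchemes
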