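import Pool.Agent.H208P.O2

/-!
MP_19ffc6_ag: resolution of the quotients of smooth affine varieties of characteristic `p` by
`p`-closed vector fields which locally, up to étale maps, look like sums of vector fields on curves,
linear nilpotent vector fields and vector fields with a weighted centre, and by finite abelian tame
groups which normalize them.
-/

set_option autoImplicit false

open AlgebraicGeometry CategoryTheory Pool.Agent.H920R2 Pool.Agent.H208P

universe u

namespace Pool.Agent.Results.MP_19ffc6_ag.WeightedVectorFields

/-- The structure morphism of the spectrum of a subalgebra. -/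
noncomputable def str {k B : Type u} [Field k] [CommRing B] [Algebra k B] (C : Subalgebra k B) :
    Spec (CommRingCat.of C) ⟶ Spec (CommRingCat.of k) :=
  Spec.map (CommRingCat.ofHom (algebraMap k C))

/-- Let `p` be a prime, `k` a perfect field of characteristic `p`, `B` a domain which is smooth
over `k`, and `D` a `p`-closed vector field on `Spec B`, that is `D ^ p = φ D` for some rational
function `φ`, which is in the class `WeightedField`. Let `G` be a finite abelian group of order
prime to `p` which acts on `B` by `Θ`, such that `k` contains the roots of unity of order the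
exponent of `G`, and such that the `Θ g` normalize the foliation given by `D`: `Θ g ∘ D` is a
multiple of `D ∘ Θ g` (for example, `G` is trivial). Let `C` be the ring of the constants of `D`
which are invariant under `G`. Then `Spec C`, the quotient of `Spec B` by `D` and `G`, is a variety
which has a resolution of singularities. Moreover `D` is zero or has a centre of positive weight
on `B`, and this centre is stable under `G`. -/
theorem result (p : ℕ) [Fact p.Prime] (k : Type u) [Field k] [CharP k p] [PerfectField k]
    (B : Type u) [CommRing B] [IsDomain B] [Algebra k B] [Algebra.Smooth k B]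
    (D : Derivation k B B) (φ : FractionRing B)
    (hD : ∀ b, algebraMap B (FractionRing B) (D^[p] b) = φ * algebraMap B (FractionRing B) (D b))
    (hW : WeightedField p k B D)
    (G : Type) [CommGroup G] [Finite G] (Θ : G →* (B ≃ₐ[k] B)) (hG : ¬ p ∣ Nat.card G)
    [HasEnoughRootsOfUnity k (Monoid.exponent G)]
    (hn : ∀ g, ∃ u : B, ∀ b, Θ g (D b) = u * D (Θ g b))
    (C : Subalgebra k B) (hC : ∀ b, b ∈ C ↔ D b = 0 ∧ ∀ g, Θ g b = b) :
    ((∀ b, D b = 0) ∨ ∃ (l : ℕ) (F : ℕ → Ideal B), 0 < l ∧ Centred k (fun b => D b) l F ∧
      ∀ (g : G) (d : ℕ), ∀ x ∈ F d, Θ g x ∈ F d) ∧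
    IsVariety (str C) ∧
    ∃ (Y : Scheme.{u}) (π : Y ⟶ Spec (CommRingCat.of C)),
      AlgebraicGeometry.IsIntegral Y ∧ AlgebraicGeometry.IsProper π ∧
      AlgebraicGeometry.Smooth (π ≫ str C) ∧
      ∃ U : (Spec (CommRingCat.of C)).Opens,
        Dense (U : Set (Spec (CommRingCat.of C))) ∧ IsIso (π ∣_ U) := by
  have hp : p.Prime := Fact.out
  have hpk : (p : k) = 0 := CharP.cast_eq_zero k p
  have hG' : (Nat.card G : k) ≠ 0 := fun h => hG ((CharP.cast_eq_zero_iff k p _).1 h)
  have hc := hW.hasCentre hp hpk
  refine ⟨?_, resolution_field hp hpk D φ hD hc Θ hG' hn C hC⟩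
  by_cases h0 : ∀ b, D b = 0
  · exact Or.inl h0
  · right
    push Not at h0
    obtain ⟨l, hl, hcen⟩ := hc
    obtain ⟨F, hF⟩ := hcen.centred h0
    refine ⟨l, F, hl, hF, fun g d => ?_⟩
    obtain ⟨u, hu⟩ := hn g
    exact stable_field hl hF.regular ⟨hF.raises, hF.zeros, hF.leading⟩ (Θ g) u hu d

end Pool.Agent.Results.MP_19ffc6_ag.WeightedVectorFields
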